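import Pool.Agent.W759.FD.Defs

/-!
# Flipping one coordinate preserves the fair coins
-/

namespace Pool.Agent.W7.FD

open MeasureTheory ProbabilityTheory Set Filter Pool.Agent.W759.FD
open scoped ENNReal Topology

theorem coin_map_not : coin.map (fun b : Bool => !b) = coin := by
  unfold coin
  have hm : Measurable fun b : Bool => !b := by fun_prop
  have h1 : (Measure.dirac true).map (fun b : Bool => !b) = Measure.dirac false :=
    Measure.map_dirac' hm true
  have h2 : (Measure.dirac false).map (fun b : Bool => !b) = Measure.dirac true :=
    Measure.map_dirac' hm false
  rw [Measure.map_add _ _ hm, Measure.map_smul, Measure.map_smul, h1, h2, add_comm]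

theorem t0 : P0 := by
  intro j
  have h1 : (fun h : ℕ → Bool => Function.update h j (!(h j))) =
      fun h i => (if i = j then (fun b : Bool => !b) else id) (h i) := by
    funext h i
    by_cases hi : i = j
    · subst hi; simp
    · simp [hi]
  rw [h1]
  unfold coins
  rw [Measure.infinitePi_map_pi (μ := fun _ : ℕ => coin)
    (f := fun i => if i = j then (fun b : Bool => !b) else id) (fun i => by fun_prop)]
  congr 1
  funext i
  by_cases hi : i = j
  · simp only [hi, if_true]; exact coin_map_not
  · simp only [hi, if_false]; exact Measure.map_id

end Pool.Agent.W7.FD
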